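import Pool.Agent.Helper56.QV.Red
import Pool.Agent.Helper56.QV.Dyadic2

/-!
MP_39e98c_al: the quasi-variety generated by `Aut(Ω)`, for a chain `Ω` all of whose bounded
intervals are countable or scattered.
-/

set_option autoImplicit false

namespace Pool.Agent.Results.MP_39e98c_al.Classification

open Pool.Agent.Helper56.QV

universe u

theorem result (Ω : Type u) [LinearOrder Ω] (hs : LocCS Ω) :
    -- with iterated roots: all lattice-ordered groups
    (HasDyadic Ω → ∀ (G : Type u) [LGroup G], InQV (Ω ≃o Ω) G) ∧
    -- without iterated roots: generated by the wreath powers of `ℤ` over the chains of bumps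
    (∀ hd : ¬ HasDyadic Ω, ∀ φ : QId,
      φ.Holds (Ω ≃o Ω) ↔ ∀ ω : Ω, φ.Holds (BumpPow hd ω)) :=
  ⟨fun hd G _ _ hφ => holds_everywhere hs hd hφ G, fun hd φ => holds_iff_bumpPow hd hs φ⟩

end Pool.Agent.Results.MP_39e98c_al.Classification
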