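import Pool.Agent.Helper56.QV.Cont

/-!
MP_39e98c_al: continuum many quasi-varieties are generated by metabelian automorphism groups of
chains.
-/

set_option autoImplicit false

namespace Pool.Agent.Results.MP_39e98c_al.ContinuumMany

open Pool.Agent.Helper56.QV

theorem result :
    Cardinal.mk {T : Set QId // ∃ (Ω : Type) (_ : LinearOrder Ω),
      derivedSeries (Ω ≃o Ω) 2 = ⊥ ∧ T = {φ | φ.Holds (Ω ≃o Ω)}} = Cardinal.continuum :=
  continuum_many

end Pool.Agent.Results.MP_39e98c_al.ContinuumMany
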