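import Pool.Agent.Helper17.BHC.Final

/-!
MP_39e98c_al: doubly homogeneous chains in the real line and the chains fibred over them.
-/

set_option autoImplicit false

namespace Pool.Agent.Results.MP_39e98c_al.DoublyHomogeneous

open Pool.Agent.Helper56.QV Pool.Agent.Helper17.BHC

universe u v

theorem result :
    (∀ X : Set ℝ, Dense X → DoublyHom X → (MeasurableSet X ∨ ¬ Bernstein X) →
      ∀ (Ω : Type u) [LinearOrder Ω] (J : Set Ω), J.OrdConnected → J.Nonempty →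
      ∀ p : Ω → ℝ, MonotoneOn p J →
      (∀ x ∈ X, ∀ y ∈ X, Nonempty ({z // z ∈ J ∧ p z = x} ≃o {z // z ∈ J ∧ p z = y})) →
      (∀ x ∉ X, ∀ y ∉ X, Nonempty ({z // z ∈ J ∧ p z = x} ≃o {z // z ∈ J ∧ p z = y})) →
      ∀ (G : Type v) [LGroup G], InQV (Ω ≃o Ω) G) ∧
    (∃ X : Set ℝ, Dense X ∧ DoublyHom X ∧
      (∀ e : Tm × Tm, IdHolds e (X ≃o X) → ∀ (G : Type v) [LGroup G], IdHolds e G) ∧
      ∃ (G : Type) (_ : LGroup G), NormalValued G ∧ ¬ InQV (X ≃o X) G) ∧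
    (∃ X : Set ℝ, Dense X ∧ DoublyHom X ∧ Bernstein X ∧
      ∀ (G : Type v) [LGroup G], InQV (X ≃o X) G) :=
  ⟨fun X hd hX hB Ω _ J hJ hne p hp h1 h2 G _ =>
    all_of_fibred X hd hX hB Ω J hJ hne p hp h1 h2 G, exists_proper, exists_all⟩

end Pool.Agent.Results.MP_39e98c_al.DoublyHomogeneous
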