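import Pool.Agent.Helper56.QV.Facts
import Pool.Agent.Helper56.QV.Config2
import Pool.Agent.Helper56.QV.Solv

/-!
MP_39e98c_al: the quasi-variety generated by `Aut(Ω)` has no recursively enumerable set of
defining quasi-identities.
-/

set_option autoImplicit false

namespace Pool.Agent.Results.MP_39e98c_al.NotAxiomatizable

open Pool.Agent.Helper56.QV

universe u

theorem result (Ω : Type u) [LinearOrder Ω] (hnc : ∃ f g : Ω ≃o Ω, f * g ≠ g * f)
    (hΩ : IsEmpty (ℚ ↪o Ω) ∨ ¬ HasDyadic Ω) :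
    ¬ ∃ S : Set QId, (REPred fun n => ∃ ψ ∈ S, ψ.code = n) ∧
      ∀ (G : Type u) [LGroup G], InQV (Ω ≃o Ω) G ↔ ∀ ψ ∈ S, ψ.Holds G := by
  rintro ⟨S, hS, h⟩
  have hd : ¬ HasDyadic Ω := hΩ.elim (fun h => not_dyadic_of_scattered h) id
  exact not_axiom (hasConf_of_not_comm hnc) hd (fun ψ => ψ ∈ S) hS h

end Pool.Agent.Results.MP_39e98c_al.NotAxiomatizable
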